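import Mathlib
import Pool.Agent.H70.Dirac.Cubic

/-!
# Points on four vertical lines

`A, B, C, D`: the points on the lines `x = x₁ < x₂ < x₃ < x₄`; `a₊, a₋, c₊, c₋` the extreme points of
`A` and `C`. The numbers of directions seen from these four points have sum at least `2n`.
-/

set_option autoImplicit false

namespace Pool.Agent.H65.DI

open Finset Pool.Agent.H70.Dirac

/-- slope of `q` seen from `p` -/
noncomputable def sl (p q : ℝ × ℝ) : ℝ := (q.2 - p.2) / (q.1 - p.1)

private theorem Four_cr {p q r : ℝ × ℝ} (hq : q.1 ≠ p.1) (hr : r.1 ≠ p.1) (h : sl p q ≠ sl p r) :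
    cr p q r ≠ 0 := by
  intro h0
  apply h
  have h1 : q.1 - p.1 ≠ 0 := sub_ne_zero.2 hq
  have h2 : r.1 - p.1 ≠ 0 := sub_ne_zero.2 hr
  unfold cr at h0
  unfold sl
  rw [div_eq_div_iff h1 h2]
  linarith

/-- three classes separated by slopes, and one point on the vertical through `p` -/
theorem sees_three (P : Finset (ℝ × ℝ)) (p w : ℝ × ℝ) (hw : w ∈ P) (hwp : w ≠ p) (hw1 : w.1 = p.1)
    (M Lo Hi : Finset (ℝ × ℝ)) (hM : M ⊆ P) (hLo : Lo ⊆ P) (hHi : Hi ⊆ P) (xM xL xH : ℝ)
    (hxM : ∀ q ∈ M, q.1 = xM) (hxL : ∀ q ∈ Lo, q.1 = xL) (hxH : ∀ q ∈ Hi, q.1 = xH)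
    (hM1 : xM ≠ p.1) (hL1 : xL ≠ p.1) (hH1 : xH ≠ p.1) (s1 s2 : ℝ)
    (hsM : ∀ q ∈ M, s1 ≤ sl p q ∧ sl p q ≤ s2) (hsL : ∀ q ∈ Lo, sl p q < s1)
    (hsH : ∀ q ∈ Hi, s2 < sl p q) (hs : s1 ≤ s2) :
    Sees P p (1 + M.card + Lo.card + Hi.card) := by
  classical
  have hdML : Disjoint M Lo := by
    rw [disjoint_left]
    intro q hq hq'
    exact absurd (hsL q hq') (not_lt.2 (hsM q hq).1)
  have hdMH : Disjoint (M ∪ Lo) Hi := by
    rw [disjoint_left]
    intro q hq hq'
    rcases mem_union.1 hq with h | h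
    · exact absurd (hsH q hq') (not_lt.2 (hsM q h).2)
    · have h1 := hsL q h
      have h2 := hsH q hq'
      linarith
  set S := M ∪ Lo ∪ Hi with hS
  have hne : ∀ q ∈ S, q.1 ≠ p.1 := by
    intro q hq
    rw [hS, mem_union, mem_union] at hq
    rcases hq with (h | h) | h
    · rw [hxM q h]; exact hM1
    · rw [hxL q h]; exact hL1
    · rw [hxH q h]; exact hH1
  have hwS : w ∉ S := fun h => hne w h hw1
  have hScard : S.card = M.card + Lo.card + Hi.card := by
    rw [hS, card_union_of_disjoint hdMH, card_union_of_disjoint hdML]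
  have hsame : ∀ (x : ℝ), x ≠ p.1 → ∀ q r : ℝ × ℝ, q.1 = x → r.1 = x → q ≠ r → cr p q r ≠ 0 := by
    intro x hx q r hq hr hqr
    refine Four_cr (by rw [hq]; exact hx) (by rw [hr]; exact hx) ?_
    intro h
    apply hqr
    unfold sl at h
    rw [hq, hr, div_left_inj' (sub_ne_zero.2 hx)] at h
    exact Prod.ext (by rw [hq, hr]) (by linarith)
  refine ⟨insert w S, ?_, ?_, ?_, ?_⟩
  · intro q hq
    rcases mem_insert.1 hq with rfl | h
    · exact hw
    · rw [hS, mem_union, mem_union] at h
      rcases h with (h | h) | h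
      · exact hM h
      · exact hLo h
      · exact hHi h
  · intro h
    rcases mem_insert.1 h with h | h
    · exact hwp h.symm
    · exact hne p h rfl
  · rw [card_insert_of_notMem hwS, hScard]
    omega
  · have hvert : ∀ q ∈ S, cr p w q ≠ 0 := by
      intro q hq h0
      unfold cr at h0
      rw [hw1, sub_self, zero_mul, zero_sub, neg_eq_zero] at h0
      rcases mul_eq_zero.1 h0 with h | h
      · exact hwp (Prod.ext hw1 (by linarith))
      · exact hne q hq (by linarith)
    have hpair : ∀ q ∈ S, ∀ r ∈ S, q ≠ r → cr p q r ≠ 0 := by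
      intro q hq r hr hqr
      have hq' := hq
      have hr' := hr
      rw [hS, mem_union, mem_union] at hq hr
      rcases hq with (hq | hq) | hq
      · rcases hr with (hr | hr) | hr
        · exact hsame xM hM1 q r (hxM q hq) (hxM r hr) hqr
        · refine Four_cr (hne q hq') (hne r hr') ?_
          have h1 := (hsM q hq).1
          have h2 := hsL r hr
          exact (lt_of_lt_of_le h2 h1).ne'
        · refine Four_cr (hne q hq') (hne r hr') ?_
          have h1 := (hsM q hq).2
          have h2 := hsH r hr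
          exact (lt_of_le_of_lt h1 h2).ne
      · rcases hr with (hr | hr) | hr
        · refine Four_cr (hne q hq') (hne r hr') ?_
          exact (lt_of_lt_of_le (hsL q hq) (hsM r hr).1).ne
        · exact hsame xL hL1 q r (hxL q hq) (hxL r hr) hqr
        · refine Four_cr (hne q hq') (hne r hr') ?_
          exact (lt_trans (lt_of_lt_of_le (hsL q hq) hs) (hsH r hr)).ne
      · rcases hr with (hr | hr) | hr
        · refine Four_cr (hne q hq') (hne r hr') ?_
          exact (lt_of_le_of_lt (hsM r hr).2 (hsH q hq)).ne'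
        · refine Four_cr (hne q hq') (hne r hr') ?_
          exact (lt_trans (lt_of_lt_of_le (hsL r hr) hs) (hsH q hq)).ne'
        · exact hsame xH hH1 q r (hxH q hq) (hxH r hr) hqr
    intro q hq r hr hqr
    rcases mem_insert.1 hq with h | h
    · rcases mem_insert.1 hr with h' | h'
      · exact absurd (h.trans h'.symm) hqr
      · rw [h]; exact hvert r h'
    · rcases mem_insert.1 hr with h' | h'
      · rw [h', cr_swap, neg_ne_zero]; exact hvert q h
      · exact hpair q h r h' hqr

/-- the points on the vertical `x` -/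
noncomputable def ver (P : Finset (ℝ × ℝ)) (x : ℝ) : Finset (ℝ × ℝ) := by
  classical exact P.filter fun p => p.1 = x

theorem mem_ver {P : Finset (ℝ × ℝ)} {x : ℝ} {p : ℝ × ℝ} : p ∈ ver P x ↔ p ∈ P ∧ p.1 = x := by
  classical
  unfold ver
  rw [mem_filter]

private theorem Four_sl_a_lt {a c b : ℝ × ℝ} (h1 : a.1 < c.1) (h2 : a.1 < b.1)
    (h : cr a c b < 0) : sl a b < sl a c := by
  unfold cr at h
  unfold sl
  rw [div_lt_div_iff₀ (by linarith) (by linarith)]
  linarith

private theorem Four_sl_a_gt {a c b : ℝ × ℝ} (h1 : a.1 < c.1) (h2 : a.1 < b.1)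
    (h : 0 < cr a c b) : sl a c < sl a b := by
  unfold cr at h
  unfold sl
  rw [div_lt_div_iff₀ (by linarith) (by linarith)]
  linarith

private theorem Four_neg (c b : ℝ × ℝ) : sl c b = (c.2 - b.2) / (c.1 - b.1) := by
  unfold sl
  rw [← neg_sub c.2 b.2, ← neg_sub c.1 b.1, neg_div_neg_eq]

/-- `b` left of `c`, above `ac`: smaller slope from `c` -/
private theorem Four_sl_c_lt {a c b : ℝ × ℝ} (h1 : a.1 < c.1) (h2 : b.1 < c.1)
    (h : 0 < cr a c b) : sl c b < sl c a := by
  unfold cr at h
  rw [Four_neg c b, Four_neg c a, div_lt_div_iff₀ (by linarith) (by linarith)]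
  nlinarith

private theorem Four_sl_c_gt {a c b : ℝ × ℝ} (h1 : a.1 < c.1) (h2 : b.1 < c.1)
    (h : cr a c b < 0) : sl c a < sl c b := by
  unfold cr at h
  rw [Four_neg c b, Four_neg c a, div_lt_div_iff₀ (by linarith) (by linarith)]
  nlinarith

/-- `d` right of `c`, above `ac`: larger slope from `c` -/
private theorem Four_sl_c_gt' {a c d : ℝ × ℝ} (h1 : a.1 < c.1) (h2 : c.1 < d.1)
    (h : 0 < cr a c d) : sl c a < sl c d := by
  unfold cr at h
  rw [Four_neg c a]
  unfold sl
  rw [div_lt_div_iff₀ (by linarith) (by linarith)]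
  nlinarith

private theorem Four_sl_c_lt' {a c d : ℝ × ℝ} (h1 : a.1 < c.1) (h2 : c.1 < d.1)
    (h : cr a c d < 0) : sl c d < sl c a := by
  unfold cr at h
  rw [Four_neg c a]
  unfold sl
  rw [div_lt_div_iff₀ (by linarith) (by linarith)]
  nlinarith

/-- at most one point of a vertical is on a line which is not vertical -/
private theorem Four_split {B : Finset (ℝ × ℝ)} {x : ℝ} (hB : ∀ b ∈ B, b.1 = x) {a c : ℝ × ℝ}
    (hac : a.1 < c.1) :
    B.card ≤ (B.filter fun b => cr a c b < 0).card + (B.filter fun b => 0 < cr a c b).card + 1 := by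
  classical
  have h1 : B ⊆ (B.filter fun b => cr a c b < 0) ∪ (B.filter fun b => 0 < cr a c b) ∪
      (B.filter fun b => cr a c b = 0) := by
    intro b hb
    simp only [mem_union, mem_filter]
    rcases lt_trichotomy (cr a c b) 0 with h | h | h
    · exact Or.inl (Or.inl ⟨hb, h⟩)
    · exact Or.inr ⟨hb, h⟩
    · exact Or.inl (Or.inr ⟨hb, h⟩)
  have h2 : (B.filter fun b => cr a c b = 0).card ≤ 1 := by
    rw [card_le_one]
    intro b hb b' hb'
    rw [mem_filter] at hb hb'
    have e1 := hb.2
    have e2 := hb'.2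
    unfold cr at e1 e2
    have e3 := hB b hb.1
    have e4 := hB b' hb'.1
    rw [e3] at e1
    rw [e4] at e2
    have e5 : (c.1 - a.1) * (b.2 - b'.2) = 0 := by linarith
    have e6 := (mul_eq_zero.1 e5).resolve_left (by linarith)
    exact Prod.ext (by rw [e3, e4]) (by linarith)
  have h3 := (card_le_card h1).trans (card_union_le _ _)
  have h4 := card_union_le (B.filter fun b => cr a c b < 0) (B.filter fun b => 0 < cr a c b)
  omega

/-- **Main lemma.** Two points at least on the first and on the third line. -/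
theorem four_vert (P : Finset (ℝ × ℝ)) (x1 x2 x3 x4 : ℝ) (h12 : x1 < x2) (h23 : x2 < x3)
    (h34 : x3 < x4) (hP : ∀ p ∈ P, p.1 = x1 ∨ p.1 = x2 ∨ p.1 = x3 ∨ p.1 = x4)
    (hA : 2 ≤ (ver P x1).card) (hC : 2 ≤ (ver P x3).card) :
    ∃ p ∈ P, ∃ k : ℕ, Sees P p k ∧ P.card ≤ 2 * k := by
  classical
  set A := ver P x1 with hAdef
  set B := ver P x2 with hBdef
  set C := ver P x3 with hCdef
  set D := ver P x4 with hDdef
  have hsub : ∀ x, ver P x ⊆ P := fun x p hp => (mem_ver.1 hp).1
  have hA1 : ∀ p ∈ A, p.1 = x1 := fun p hp => (mem_ver.1 hp).2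
  have hB1 : ∀ p ∈ B, p.1 = x2 := fun p hp => (mem_ver.1 hp).2
  have hC1 : ∀ p ∈ C, p.1 = x3 := fun p hp => (mem_ver.1 hp).2
  have hD1 : ∀ p ∈ D, p.1 = x4 := fun p hp => (mem_ver.1 hp).2
  have hcard : P.card ≤ A.card + B.card + C.card + D.card := by
    have h1 : P ⊆ A ∪ B ∪ C ∪ D := by
      intro p hp
      simp only [mem_union]
      rcases hP p hp with h | h | h | h
      · exact Or.inl (Or.inl (Or.inl (mem_ver.2 ⟨hp, h⟩)))
      · exact Or.inl (Or.inl (Or.inr (mem_ver.2 ⟨hp, h⟩)))
      · exact Or.inl (Or.inr (mem_ver.2 ⟨hp, h⟩))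
      · exact Or.inr (mem_ver.2 ⟨hp, h⟩)
    have h2 := (card_le_card h1).trans (card_union_le _ _)
    have h3 := card_union_le (A ∪ B) C
    have h4 := card_union_le A B
    omega
  have hAne : A.Nonempty := card_pos.1 (by omega)
  have hCne : C.Nonempty := card_pos.1 (by omega)
  obtain ⟨ap, hap, hapmax⟩ := exists_max_image A (fun p => p.2) hAne
  obtain ⟨am, ham, hammin⟩ := exists_min_image A (fun p => p.2) hAne
  obtain ⟨cp, hcp, hcpmax⟩ := exists_max_image C (fun p => p.2) hCne
  obtain ⟨cm, hcm, hcmmin⟩ := exists_min_image C (fun p => p.2) hCne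
  have hneA : am ≠ ap := by
    rintro rfl
    have : A.card ≤ 1 := by
      rw [card_le_one]
      intro p hp q hq
      have e1 := hapmax p hp
      have e2 := hammin p hp
      have e3 := hapmax q hq
      have e4 := hammin q hq
      exact Prod.ext (by rw [hA1 p hp, hA1 q hq]) (by linarith)
    omega
  have hneC : cm ≠ cp := by
    rintro rfl
    have : C.card ≤ 1 := by
      rw [card_le_one]
      intro p hp q hq
      have e1 := hcpmax p hp
      have e2 := hcmmin p hp
      have e3 := hcpmax q hq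
      have e4 := hcmmin q hq
      exact Prod.ext (by rw [hC1 p hp, hC1 q hq]) (by linarith)
    omega
  have hap1 := hA1 ap hap
  have ham1 := hA1 am ham
  have hcp1 := hC1 cp hcp
  have hcm1 := hC1 cm hcm
  -- slopes from points of `A` to points of `C`
  have hslA : ∀ a : ℝ × ℝ, a.1 = x1 → ∀ c ∈ C, sl a cm ≤ sl a c ∧ sl a c ≤ sl a cp := by
    intro a ha c hc
    unfold sl
    rw [hC1 c hc, hcm1, hcp1, ha]
    have e1 := hcpmax c hc
    have e2 := hcmmin c hc
    have e3 : 0 < x3 - x1 := by linarith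
    constructor
    · exact div_le_div_of_nonneg_right (by linarith) e3.le
    · exact div_le_div_of_nonneg_right (by linarith) e3.le
  -- slopes from points of `C` to points of `A`
  have hslC : ∀ c : ℝ × ℝ, c.1 = x3 → ∀ a ∈ A, sl c ap ≤ sl c a ∧ sl c a ≤ sl c am := by
    intro c hc a ha
    rw [Four_neg c a, Four_neg c ap, Four_neg c am]
    rw [hA1 a ha, ham1, hap1, hc]
    have e1 := hapmax a ha
    have e2 := hammin a ha
    have e3 : 0 < x3 - x1 := by linarith
    constructor
    · exact div_le_div_of_nonneg_right (by linarith) e3.le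
    · exact div_le_div_of_nonneg_right (by linarith) e3.le
  have b1 := Four_split (B := B) (x := x2) hB1 (a := ap) (c := cm) (by rw [hap1, hcm1]; linarith)
  have b2 := Four_split (B := B) (x := x2) hB1 (a := am) (c := cp) (by rw [ham1, hcp1]; linarith)
  have d1 := Four_split (B := D) (x := x4) hD1 (a := ap) (c := cp) (by rw [hap1, hcp1]; linarith)
  have d2 := Four_split (B := D) (x := x4) hD1 (a := am) (c := cm) (by rw [ham1, hcm1]; linarith)
  -- the four points
  have s1 : Sees P ap (1 + C.card + (B.filter fun b => cr ap cm b < 0).card +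
      (D.filter fun d => 0 < cr ap cp d).card) := by
    refine sees_three P ap am (hsub _ ham) hneA (by rw [ham1, hap1]) C _ _ (hsub _)
      ((filter_subset _ _).trans (hsub _)) ((filter_subset _ _).trans (hsub _)) x3 x2 x4 hC1
      (fun q hq => hB1 q (mem_filter.1 hq).1) (fun q hq => hD1 q (mem_filter.1 hq).1)
      (by rw [hap1]; linarith) (by rw [hap1]; linarith) (by rw [hap1]; linarith)
      (sl ap cm) (sl ap cp) (hslA ap hap1) ?_ ?_ ((hslA ap hap1 cp hcp).1)
    · intro q hq
      rw [mem_filter] at hq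
      exact Four_sl_a_lt (by rw [hap1, hcm1]; linarith) (by rw [hap1, hB1 q hq.1]; linarith) hq.2
    · intro q hq
      rw [mem_filter] at hq
      exact Four_sl_a_gt (by rw [hap1, hcp1]; linarith) (by rw [hap1, hD1 q hq.1]; linarith) hq.2
  have s2 : Sees P cm (1 + A.card + (B.filter fun b => 0 < cr ap cm b).card +
      (D.filter fun d => 0 < cr am cm d).card) := by
    refine sees_three P cm cp (hsub _ hcp) hneC.symm (by rw [hcm1, hcp1]) A _ _ (hsub _)
      ((filter_subset _ _).trans (hsub _)) ((filter_subset _ _).trans (hsub _)) x1 x2 x4 hA1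
      (fun q hq => hB1 q (mem_filter.1 hq).1) (fun q hq => hD1 q (mem_filter.1 hq).1)
      (by rw [hcm1]; linarith) (by rw [hcm1]; linarith) (by rw [hcm1]; linarith)
      (sl cm ap) (sl cm am) (hslC cm hcm1) ?_ ?_ ((hslC cm hcm1 am ham).1)
    · intro q hq
      rw [mem_filter] at hq
      exact Four_sl_c_lt (by rw [hap1, hcm1]; linarith) (by rw [hcm1, hB1 q hq.1]; linarith) hq.2
    · intro q hq
      rw [mem_filter] at hq
      exact Four_sl_c_gt' (by rw [ham1, hcm1]; linarith) (by rw [hcm1, hD1 q hq.1]; linarith) hq.2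
  have s3 : Sees P am (1 + C.card + (D.filter fun d => cr am cm d < 0).card +
      (B.filter fun b => 0 < cr am cp b).card) := by
    refine sees_three P am ap (hsub _ hap) hneA.symm (by rw [ham1, hap1]) C _ _ (hsub _)
      ((filter_subset _ _).trans (hsub _)) ((filter_subset _ _).trans (hsub _)) x3 x4 x2 hC1
      (fun q hq => hD1 q (mem_filter.1 hq).1) (fun q hq => hB1 q (mem_filter.1 hq).1)
      (by rw [ham1]; linarith) (by rw [ham1]; linarith) (by rw [ham1]; linarith)
      (sl am cm) (sl am cp) (hslA am ham1) ?_ ?_ ((hslA am ham1 cp hcp).1)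
    · intro q hq
      rw [mem_filter] at hq
      exact Four_sl_a_lt (by rw [ham1, hcm1]; linarith) (by rw [ham1, hD1 q hq.1]; linarith) hq.2
    · intro q hq
      rw [mem_filter] at hq
      exact Four_sl_a_gt (by rw [ham1, hcp1]; linarith) (by rw [ham1, hB1 q hq.1]; linarith) hq.2
  have s4 : Sees P cp (1 + A.card + (D.filter fun d => cr ap cp d < 0).card +
      (B.filter fun b => cr am cp b < 0).card) := by
    refine sees_three P cp cm (hsub _ hcm) hneC (by rw [hcm1, hcp1]) A _ _ (hsub _)
      ((filter_subset _ _).trans (hsub _)) ((filter_subset _ _).trans (hsub _)) x1 x4 x2 hA1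
      (fun q hq => hD1 q (mem_filter.1 hq).1) (fun q hq => hB1 q (mem_filter.1 hq).1)
      (by rw [hcp1]; linarith) (by rw [hcp1]; linarith) (by rw [hcp1]; linarith)
      (sl cp ap) (sl cp am) (hslC cp hcp1) ?_ ?_ ((hslC cp hcp1 am ham).1)
    · intro q hq
      rw [mem_filter] at hq
      exact Four_sl_c_lt' (by rw [hap1, hcp1]; linarith) (by rw [hcp1, hD1 q hq.1]; linarith) hq.2
    · intro q hq
      rw [mem_filter] at hq
      exact Four_sl_c_gt (by rw [ham1, hcp1]; linarith) (by rw [hcp1, hB1 q hq.1]; linarith) hq.2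
  by_contra hcon
  push Not at hcon
  have t1 := hcon ap (hsub _ hap) _ s1
  have t2 := hcon cm (hsub _ hcm) _ s2
  have t3 := hcon am (hsub _ ham) _ s3
  have t4 := hcon cp (hsub _ hcp) _ s4
  omega

end Pool.Agent.H65.DI
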