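import Mathlib
import Pool.Agent.H65.DI.Four

/-!
# Four concurrent or parallel lines

A projective map sends the lines of a pencil to vertical lines.
-/

set_option autoImplicit false

namespace Pool.Agent.H65.DI

open Finset Pool.Agent.H70.Dirac

/-- a map to four vertical lines which reflects collinearity -/
structure Straight (P P' : Finset (ℝ × ℝ)) (M : Fin 4 → ℝ × ℝ × ℝ) (ψ : ℝ × ℝ → ℝ × ℝ)
    (ξ : Fin 4 → ℝ) (N : ℝ → ℝ × ℝ × ℝ) : Prop where
  sub : P' ⊆ P
  card : P.card ≤ P'.card + 1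
  inj : ∀ p ∈ P', ∀ q ∈ P', ψ p = ψ q → p = q
  cr_ne : ∀ p ∈ P', ∀ q ∈ P', ∀ r ∈ P', cr (ψ p) (ψ q) (ψ r) ≠ 0 → cr p q r ≠ 0
  fst : ∀ i, ∀ p ∈ P', ev (M i) p = 0 → (ψ p).1 = ξ i
  nondeg : ∀ x, Nondeg (N x)
  line : ∀ x, ∀ p ∈ P', (ψ p).1 = x → ev (N x) p = 0
  out : ∀ x, ∀ p ∈ P, p ∉ P' → ev (N x) p = 0

private theorem Proj_par {P : Finset (ℝ × ℝ)} {M : Fin 4 → ℝ × ℝ × ℝ} (hM : ∀ i, Nondeg (M i))
    {a b : ℝ} (hab : (a, b) ≠ (0, 0)) (hO : ∀ i, (M i).1 * a + (M i).2.1 * b = 0) :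
    ∃ ψ ξ N, Straight P P M ψ ξ N := by
  have hN : 0 < a ^ 2 + b ^ 2 := by
    by_contra hcon
    apply hab
    have h1 : a ^ 2 = 0 := by nlinarith [sq_nonneg a, sq_nonneg b]
    have h2 : b ^ 2 = 0 := by nlinarith [sq_nonneg a, sq_nonneg b]
    have h1' : a = 0 := by simpa using h1
    have h2' : b = 0 := by simpa using h2
    simp [h1', h2']
  refine ⟨fun p => (b * p.1 - a * p.2, a * p.1 + b * p.2),
    fun i => -(M i).2.2 * (a ^ 2 + b ^ 2) / ((M i).1 * b - (M i).2.1 * a),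
    fun x => (b, -a, -x), ?_⟩
  refine ⟨Subset.refl _, Nat.le_succ _, ?_, ?_, ?_, ?_, ?_, ?_⟩
  · intro p _ q _ h
    rw [Prod.mk.injEq] at h
    obtain ⟨h1, h2⟩ := h
    have e1 : (a ^ 2 + b ^ 2) * (p.1 - q.1) = 0 := by linear_combination b * h1 + a * h2
    have e2 : (a ^ 2 + b ^ 2) * (p.2 - q.2) = 0 := by linear_combination b * h2 - a * h1
    have e3 := (mul_eq_zero.1 e1).resolve_left hN.ne'
    have e4 := (mul_eq_zero.1 e2).resolve_left hN.ne'
    exact Prod.ext (by linarith) (by linarith)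
  · intro p _ q _ r _ h h0
    apply h
    have : cr (b * p.1 - a * p.2, a * p.1 + b * p.2) (b * q.1 - a * q.2, a * q.1 + b * q.2)
        (b * r.1 - a * r.2, a * r.1 + b * r.2) = (a ^ 2 + b ^ 2) * cr p q r := by
      unfold cr; ring
    rw [this, h0, mul_zero]
  · intro i p _ hp
    have h1 := hO i
    have hne : (M i).1 * b - (M i).2.1 * a ≠ 0 := by
      intro h0
      apply hM i
      have e1 : (a ^ 2 + b ^ 2) * (M i).1 = 0 := by linear_combination a * h1 + b * h0
      have e2 : (a ^ 2 + b ^ 2) * (M i).2.1 = 0 := by linear_combination b * h1 - a * h0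
      have e3 := (mul_eq_zero.1 e1).resolve_left hN.ne'
      have e4 := (mul_eq_zero.1 e2).resolve_left hN.ne'
      rw [e3, e4]
    show b * p.1 - a * p.2 = _
    rw [eq_div_iff hne]
    unfold ev at hp
    linear_combination (a ^ 2 + b ^ 2) * hp - (a * p.1 + b * p.2) * h1
  · intro x h
    rw [Prod.mk.injEq] at h
    apply hab
    simp only at h
    rw [h.1, neg_eq_zero.1 h.2]
  · intro x p _ h
    unfold ev
    simp only at h ⊢
    linarith
  · intro x p hp hp'
    exact absurd hp hp'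

private theorem Proj_con {P : Finset (ℝ × ℝ)} {M : Fin 4 → ℝ × ℝ × ℝ} (hM : ∀ i, Nondeg (M i))
    {a b : ℝ} (hO : ∀ i, (M i).1 * a + (M i).2.1 * b + (M i).2.2 = 0) :
    ∃ P' ψ ξ N, Straight P P' M ψ ξ N := by
  classical
  obtain ⟨s, hs⟩ := Infinite.exists_notMem_finset
    ((P.erase (a, b)).image fun p => -(p.1 - a) / (p.2 - b))
  have hL0 : ∀ p ∈ P.erase (a, b), (p.1 - a) + s * (p.2 - b) ≠ 0 := by
    intro p hp h0
    rcases eq_or_ne (p.2 - b) 0 with h1 | h1
    · rw [h1, mul_zero, add_zero] at h0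
      exact (mem_erase.1 hp).1 (Prod.ext (by linarith) (by linarith))
    · apply hs
      rw [mem_image]
      refine ⟨p, hp, ?_⟩
      rw [div_eq_iff h1]
      linarith
  have hN : 0 < 1 + s ^ 2 := by positivity
  refine ⟨P.erase (a, b), fun p => ((-s * (p.1 - a) + (p.2 - b)) / ((p.1 - a) + s * (p.2 - b)),
    1 / ((p.1 - a) + s * (p.2 - b))),
    fun i => -((M i).1 + (M i).2.1 * s) / ((M i).2.1 - (M i).1 * s),
    fun x => (-s - x, 1 - x * s, (s + x) * a - (1 - x * s) * b), ?_⟩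
  refine ⟨erase_subset _ _, ?_, ?_, ?_, ?_, ?_, ?_, ?_⟩
  · have := card_le_card (insert_erase_subset (a, b) P)
    by_cases h : (a, b) ∈ P
    · rw [card_erase_of_mem h]; omega
    · rw [erase_eq_of_notMem h]; omega
  · intro p hp q hq h
    rw [Prod.mk.injEq] at h
    obtain ⟨h1, h2⟩ := h
    have hp0 := hL0 p hp
    have hq0 := hL0 q hq
    rw [one_div, one_div, inv_inj] at h2
    rw [h2, div_left_inj' hq0] at h1
    have e1 : (1 + s ^ 2) * (p.1 - q.1) = 0 := by linear_combination h2 - s * h1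
    have e2 : (1 + s ^ 2) * (p.2 - q.2) = 0 := by linear_combination s * h2 + h1
    have e3 := (mul_eq_zero.1 e1).resolve_left hN.ne'
    have e4 := (mul_eq_zero.1 e2).resolve_left hN.ne'
    exact Prod.ext (by linarith) (by linarith)
  · intro p hp q hq r hr h h0
    apply h
    have hp0 := hL0 p hp
    have hq0 := hL0 q hq
    have hr0 := hL0 r hr
    unfold cr at h0 ⊢
    simp only
    field_simp
    linear_combination ((1 + s ^ 2) * ((p.1 - a) + s * (p.2 - b))) * h0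
  · intro i p hp hpi
    have hp0 := hL0 p hp
    have h1 := hO i
    unfold ev at hpi
    have h2 : (M i).1 * (p.1 - a) + (M i).2.1 * (p.2 - b) = 0 := by linarith
    have h3 : ((M i).1 + (M i).2.1 * s) * ((p.1 - a) + s * (p.2 - b)) +
        ((M i).2.1 - (M i).1 * s) * (-s * (p.1 - a) + (p.2 - b)) = 0 := by
      linear_combination (1 + s ^ 2) * h2
    have hne : (M i).2.1 - (M i).1 * s ≠ 0 := by
      intro h0
      rw [h0, zero_mul, add_zero] at h3
      have h4 := (mul_eq_zero.1 h3).resolve_right hp0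
      apply hM i
      have e1 : (1 + s ^ 2) * (M i).1 = 0 := by linear_combination h4 - s * h0
      have e2 : (1 + s ^ 2) * (M i).2.1 = 0 := by linear_combination s * h4 + h0
      have e3 := (mul_eq_zero.1 e1).resolve_left hN.ne'
      have e4 := (mul_eq_zero.1 e2).resolve_left hN.ne'
      rw [e3, e4]
    show (-s * (p.1 - a) + (p.2 - b)) / ((p.1 - a) + s * (p.2 - b)) = _
    rw [div_eq_div_iff hp0 hne]
    linear_combination h3
  · intro x h
    rw [Prod.mk.injEq] at h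
    simp only at h
    obtain ⟨h1, h2⟩ := h
    have : 1 + s ^ 2 = 0 := by linear_combination h2 - s * h1
    exact hN.ne' this
  · intro x p hp h
    have hp0 := hL0 p hp
    simp only at h
    rw [div_eq_iff hp0] at h
    unfold ev
    simp only
    linear_combination h
  · intro x p hp hp'
    have : p = (a, b) := by
      by_contra hne
      exact hp' (mem_erase.2 ⟨hne, hp⟩)
    rw [this]
    unfold ev
    simp only
    ring

theorem exists_straight {P : Finset (ℝ × ℝ)} {M : Fin 4 → ℝ × ℝ × ℝ} (hM : ∀ i, Nondeg (M i))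
    {O : ℝ × ℝ × ℝ} (hO0 : O ≠ (0, 0, 0))
    (hO : ∀ i, (M i).1 * O.1 + (M i).2.1 * O.2.1 + (M i).2.2 * O.2.2 = 0) :
    ∃ P' ψ ξ N, Straight P P' M ψ ξ N := by
  obtain ⟨a, b, c⟩ := O
  simp only at hO
  rcases eq_or_ne c 0 with rfl | hc
  · obtain ⟨ψ, ξ, N, h⟩ := Proj_par (P := P) hM (a := a) (b := b) (by
      intro h
      apply hO0
      rw [Prod.mk.injEq] at h
      rw [h.1, h.2]) (fun i => by have := hO i; rw [mul_zero, add_zero] at this; exact this)
    exact ⟨P, ψ, ξ, N, h⟩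
  · refine Proj_con hM (a := a / c) (b := b / c) fun i => ?_
    have := hO i
    field_simp
    linarith

/-- transfer of the main lemma -/
theorem case_one {P P' : Finset (ℝ × ℝ)} (hsub : P' ⊆ P) (hcard : P.card ≤ P'.card + 1)
    (ψ : ℝ × ℝ → ℝ × ℝ) (hinj : ∀ p ∈ P', ∀ q ∈ P', ψ p = ψ q → p = q)
    (hcr : ∀ p ∈ P', ∀ q ∈ P', ∀ r ∈ P', cr (ψ p) (ψ q) (ψ r) ≠ 0 → cr p q r ≠ 0)
    (x1 x2 x3 x4 : ℝ) (h12 : x1 < x2) (h23 : x2 < x3) (h34 : x3 < x4)
    (hP : ∀ p ∈ P', (ψ p).1 = x1 ∨ (ψ p).1 = x2 ∨ (ψ p).1 = x3 ∨ (ψ p).1 = x4)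
    (hA : 2 ≤ (P'.filter fun p => (ψ p).1 = x1).card)
    (hC : 2 ≤ (P'.filter fun p => (ψ p).1 = x3).card) : Good P := by
  classical
  have hinj' : Set.InjOn ψ (P' : Set (ℝ × ℝ)) := fun p hp q hq h => hinj p hp q hq h
  have hver : ∀ x, 2 ≤ (P'.filter fun p => (ψ p).1 = x).card → 2 ≤ (ver (P'.image ψ) x).card := by
    intro x hx
    refine le_trans hx ?_
    refine card_le_card_of_injOn ψ ?_ ?_
    · intro p hp
      rw [mem_coe, mem_filter] at hp
      rw [mem_coe, mem_ver]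
      exact ⟨mem_image_of_mem _ hp.1, hp.2⟩
    · intro p hp q hq h
      rw [mem_coe, mem_filter] at hp hq
      exact hinj p hp.1 q hq.1 h
  obtain ⟨q, hq, k, ⟨S, hS, hqS, hk, hpair⟩, hkc⟩ := four_vert (P'.image ψ) x1 x2 x3 x4 h12 h23 h34
    (by
      intro q hq
      obtain ⟨p, hp, rfl⟩ := mem_image.1 hq
      exact hP p hp) (hver x1 hA) (hver x3 hC)
  obtain ⟨p, hp, rfl⟩ := mem_image.1 hq
  rw [card_image_of_injOn hinj'] at hkc
  refine ⟨p, hsub hp, k, ⟨P'.filter fun r => ψ r ∈ S, (filter_subset _ _).trans hsub, ?_, ?_, ?_⟩,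
    by omega⟩
  · intro h
    exact hqS (mem_filter.1 h).2
  · refine le_trans hk ?_
    refine card_le_card_of_surjOn ψ ?_
    intro s hs
    rw [mem_coe] at hs
    obtain ⟨r, hr, rfl⟩ := mem_image.1 (hS hs)
    exact ⟨r, by rw [mem_coe, mem_filter]; exact ⟨hr, hs⟩, rfl⟩
  · intro r hr r' hr' hne
    rw [mem_filter] at hr hr'
    refine hcr p hp r hr.1 r' hr'.1 (hpair _ hr.2 _ hr'.2 ?_)
    intro h
    exact hne (hinj r hr.1 r' hr'.1 h)

private theorem Proj_one_line (V : Finset (ℝ × ℝ)) (hV : V.card ≤ 2) :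
    ∃ L, Nondeg L ∧ ∀ p ∈ V, ev L p = 0 := by
  classical
  have hdeg : ∀ p : ℝ × ℝ, ∃ L, Nondeg L ∧ ev L p = 0 := by
    intro p
    refine ⟨(1, 0, -p.1), ?_, ?_⟩
    · unfold Nondeg; simp
    · unfold ev; simp
  rcases V.eq_empty_or_nonempty with rfl | ⟨p, hp⟩
  · obtain ⟨L, hL, -⟩ := hdeg (0, 0)
    exact ⟨L, hL, fun p hp => absurd hp (notMem_empty p)⟩
  by_cases h : ∀ q ∈ V, q = p
  · obtain ⟨L, hL, hLp⟩ := hdeg p
    exact ⟨L, hL, fun q hq => by rw [h q hq]; exact hLp⟩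
  · push Not at h
    obtain ⟨q, hq, hqp⟩ := h
    refine ⟨lineForm p q, nondeg_lineForm hqp, ?_⟩
    intro r hr
    rw [ev_lineForm]
    have hr' : r = p ∨ r = q := by
      by_contra hcon
      push Not at hcon
      have h3 : ({p, q, r} : Finset (ℝ × ℝ)) ⊆ V := by
        intro z hz
        simp only [mem_insert, mem_singleton] at hz
        rcases hz with rfl | rfl | rfl
        · exact hp
        · exact hq
        · exact hr
      have h4 : ({p, q, r} : Finset (ℝ × ℝ)).card = 3 := by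
        rw [card_insert_of_notMem, card_insert_of_notMem, card_singleton]
        · rw [mem_singleton]; exact fun h => hcon.2 h.symm
        · simp only [mem_insert, mem_singleton, not_or]
          exact ⟨hqp.symm, fun h => hcon.1 h.symm⟩
      have h5 := card_le_card h3
      omega
    rcases hr' with rfl | rfl
    · unfold cr; ring
    · unfold cr; ring

/-- the degenerate case -/
private theorem Proj_deg {P P' : Finset (ℝ × ℝ)} {M : Fin 4 → ℝ × ℝ × ℝ} {ψ : ℝ × ℝ → ℝ × ℝ}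
    {ξ : Fin 4 → ℝ} {N : ℝ → ℝ × ℝ × ℝ} (hS : Straight P P' M ψ ξ N) (hP : NonCol P)
    (x1 x2 x3 x4 : ℝ)
    (h : ∀ p ∈ P', (ψ p).1 = x1 ∨ (ψ p).1 = x2 ∨ (ψ p).1 = x3 ∨ (ψ p).1 = x4)
    (hA : (P'.filter fun p => (ψ p).1 = x1).card ≤ 1)
    (hC : (P'.filter fun p => (ψ p).1 = x2).card ≤ 1) : Good P := by
  classical
  obtain ⟨L, hL, hLV⟩ := Proj_one_line ((P'.filter fun p => (ψ p).1 = x1) ∪
    (P'.filter fun p => (ψ p).1 = x2)) ((card_union_le _ _).trans (by omega))
  refine good_three_lines hP hL (hS.nondeg x3) (hS.nondeg x4) ?_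
  intro p hp
  by_cases hp' : p ∈ P'
  · rcases h p hp' with h1 | h1 | h1 | h1
    · exact Or.inl (hLV p (mem_union_left _ (mem_filter.2 ⟨hp', h1⟩)))
    · exact Or.inl (hLV p (mem_union_right _ (mem_filter.2 ⟨hp', h1⟩)))
    · exact Or.inr (Or.inl (hS.line x3 p hp' h1))
    · exact Or.inr (Or.inr (hS.line x4 p hp' h1))
  · exact Or.inr (Or.inl (hS.out x3 p hp hp'))

/-- **Four lines of a pencil.** -/
theorem good_pencil {P : Finset (ℝ × ℝ)} (hP : NonCol P) {M : Fin 4 → ℝ × ℝ × ℝ}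
    (hM : ∀ i, Nondeg (M i)) {O : ℝ × ℝ × ℝ} (hO0 : O ≠ (0, 0, 0))
    (hO : ∀ i, (M i).1 * O.1 + (M i).2.1 * O.2.1 + (M i).2.2 * O.2.2 = 0)
    (h : ∀ p ∈ P, ∃ i, ev (M i) p = 0) : Good P := by
  classical
  obtain ⟨P', ψ, ξ, N, hS⟩ := exists_straight (P := P) hM hO0 hO
  obtain ⟨t, ht, htc⟩ := Infinite.exists_superset_card_eq (univ.image ξ) 4
    (card_image_le.trans (by simp))
  set x := t.orderEmbOfFin htc with hx
  have hmono : StrictMono x := x.strictMono
  have hmem : ∀ p ∈ P', (ψ p).1 = x 0 ∨ (ψ p).1 = x 1 ∨ (ψ p).1 = x 2 ∨ (ψ p).1 = x 3 := by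
    intro p hp
    obtain ⟨i, hi⟩ := h p (hS.sub hp)
    have h1 : (ψ p).1 ∈ t := by
      rw [hS.fst i p hp hi]
      exact ht (mem_image_of_mem _ (mem_univ i))
    have h2 : (ψ p).1 ∈ Set.range x := by
      rw [hx, range_orderEmbOfFin]
      exact h1
    obtain ⟨j, hj⟩ := h2
    fin_cases j
    · exact Or.inl hj.symm
    · exact Or.inr (Or.inl hj.symm)
    · exact Or.inr (Or.inr (Or.inl hj.symm))
    · exact Or.inr (Or.inr (Or.inr hj.symm))
  have h01 : x 0 < x 1 := hmono (by decide)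
  have h12 : x 1 < x 2 := hmono (by decide)
  have h23 : x 2 < x 3 := hmono (by decide)
  by_cases c1 : 2 ≤ (P'.filter fun p => (ψ p).1 = x 0).card ∧
      2 ≤ (P'.filter fun p => (ψ p).1 = x 2).card
  · exact case_one hS.sub hS.card ψ hS.inj hS.cr_ne _ _ _ _ h01 h12 h23 hmem c1.1 c1.2
  by_cases c2 : 2 ≤ (P'.filter fun p => (ψ p).1 = x 1).card ∧
      2 ≤ (P'.filter fun p => (ψ p).1 = x 3).card
  · refine case_one hS.sub hS.card (fun p => (-(ψ p).1, (ψ p).2)) ?_ ?_ (-(x 3)) (-(x 2)) (-(x 1))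
      (-(x 0)) (by linarith) (by linarith) (by linarith) ?_ ?_ ?_
    · intro p hp q hq hpq
      rw [Prod.mk.injEq, neg_inj] at hpq
      exact hS.inj p hp q hq (Prod.ext hpq.1 hpq.2)
    · intro p hp q hq r hr hne
      refine hS.cr_ne p hp q hq r hr ?_
      intro h0
      apply hne
      unfold cr at h0 ⊢
      simp only
      linarith
    · intro p hp
      simp only [neg_inj]
      rcases hmem p hp with h1 | h1 | h1 | h1
      · exact Or.inr (Or.inr (Or.inr h1))
      · exact Or.inr (Or.inr (Or.inl h1))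
      · exact Or.inr (Or.inl h1)
      · exact Or.inl h1
    · simpa only [neg_inj] using c2.2
    · simpa only [neg_inj] using c2.1
  rw [not_and_or] at c1 c2
  push Not at c1 c2
  rcases c1 with c1 | c1
  · rcases c2 with c2 | c2
    · exact Proj_deg hS hP (x 0) (x 1) (x 2) (x 3) hmem (by omega) (by omega)
    · exact Proj_deg hS hP (x 0) (x 3) (x 1) (x 2) (fun p hp => by
        rcases hmem p hp with h1 | h1 | h1 | h1
        · exact Or.inl h1
        · exact Or.inr (Or.inr (Or.inl h1))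
        · exact Or.inr (Or.inr (Or.inr h1))
        · exact Or.inr (Or.inl h1)) (by omega) (by omega)
  · rcases c2 with c2 | c2
    · exact Proj_deg hS hP (x 2) (x 1) (x 0) (x 3) (fun p hp => by
        rcases hmem p hp with h1 | h1 | h1 | h1
        · exact Or.inr (Or.inr (Or.inl h1))
        · exact Or.inr (Or.inl h1)
        · exact Or.inl h1
        · exact Or.inr (Or.inr (Or.inr h1))) (by omega) (by omega)
    · exact Proj_deg hS hP (x 2) (x 3) (x 0) (x 1) (fun p hp => by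
        rcases hmem p hp with h1 | h1 | h1 | h1
        · exact Or.inr (Or.inr (Or.inl h1))
        · exact Or.inr (Or.inr (Or.inr h1))
        · exact Or.inl h1
        · exact Or.inr (Or.inl h1)) (by omega) (by omega)

end Pool.Agent.H65.DI
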