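import Mathlib
import Pool.Agent.H70.Dirac.Final
import Pool.Agent.H65.DI.Proj

/-!
# Transfer to the Euclidean plane
-/

set_option autoImplicit false

namespace Pool.Agent.H65.DI

open Finset Pool.Agent.H70.Dirac

/-- **Dirac's bound, all but `t` points on four lines of a pencil.** -/
theorem dirac_pencil (P : Finset E2) (hP : ¬ Collinear ℝ (P : Set E2))
    (M : Fin 4 → ℝ × ℝ × ℝ) (hM : ∀ i, Nondeg (M i)) (O : ℝ × ℝ × ℝ) (hO0 : O ≠ (0, 0, 0))
    (hO : ∀ i, (M i).1 * O.1 + (M i).2.1 * O.2.1 + (M i).2.2 * O.2.2 = 0) (t : ℕ)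
    (ht : {p : E2 | p ∈ P ∧ ∀ i, ev (M i) (co p) ≠ 0}.ncard ≤ t) :
    ∃ p ∈ P, (P.card : ℝ) / 2 - ((t : ℝ) + 1) / 2 ≤
      (({L : AffineSubspace ℝ E2 | ∃ q ∈ P, q ≠ p ∧ L = affineSpan ℝ {p, q}}.ncard : ℕ) : ℝ) := by
  classical
  set P0 := P.filter fun p => ∃ i, ev (M i) (co p) = 0 with hP0
  have hcard : P.card ≤ P0.card + t := by
    have h1 : P.card = P0.card + (P.filter fun p => ¬ ∃ i, ev (M i) (co p) = 0).card := by
      rw [hP0, card_filter_add_card_filter_not]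
    have h2 : (P.filter fun p => ¬ ∃ i, ev (M i) (co p) = 0).card ≤ t := by
      rw [← Set.ncard_coe_finset]
      refine le_trans (le_of_eq ?_) ht
      congr 1
      ext p
      simp
    omega
  have finish : ∀ p ∈ P, ∀ k : ℕ, (P0.card ≤ 2 * k + 1) →
      k ≤ {L : AffineSubspace ℝ E2 | ∃ q ∈ P, q ≠ p ∧ L = affineSpan ℝ {p, q}}.ncard →
      (P.card : ℝ) / 2 - ((t : ℝ) + 1) / 2 ≤
      (({L : AffineSubspace ℝ E2 | ∃ q ∈ P, q ≠ p ∧ L = affineSpan ℝ {p, q}}.ncard : ℕ) : ℝ) := by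
    intro p _ k hk1 hk2
    have h1 : P.card ≤ 2 * k + 1 + t := by omega
    have h2 : (P.card : ℝ) ≤ 2 * k + 1 + t := by exact_mod_cast h1
    have h3 : (k : ℝ) ≤ ({L : AffineSubspace ℝ E2 |
        ∃ q ∈ P, q ≠ p ∧ L = affineSpan ℝ {p, q}}.ncard : ℕ) := by exact_mod_cast hk2
    linarith
  by_cases hcol : NonCol (P0.image co)
  · obtain ⟨s, hs, k, hk, hkc⟩ := good_pencil hcol hM hO0 hO (by
      intro s hs
      obtain ⟨p, hp, rfl⟩ := mem_image.1 hs
      exact (mem_filter.1 hp).2)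
    obtain ⟨p, hp, rfl⟩ := mem_image.1 hs
    rw [card_image_of_injective _ co_injective] at hkc
    refine ⟨p, (mem_filter.1 hp).1, finish p (mem_filter.1 hp).1 k hkc ?_⟩
    refine le_ncard_of_sees (S0 := P0.image co) ?_ hk
    intro s hs
    obtain ⟨q, hq, rfl⟩ := mem_image.1 hs
    exact ⟨q, (mem_filter.1 hq).1, rfl⟩
  · unfold NonCol at hcol
    push Not at hcol
    obtain ⟨L, hL, hLP⟩ := hcol
    have hex : ∃ z ∈ P, ev L (co z) ≠ 0 := by
      by_contra hcon
      push Not at hcon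
      exact hP (collinear_of_line hL hcon)
    obtain ⟨z, hz, hz'⟩ := hex
    have hsee := sees_line (P0.image co) L hz'
    have hall : (P0.image co).filter (fun p => ev L p = 0) = P0.image co := by
      rw [filter_eq_self]
      exact hLP
    rw [hall, card_image_of_injective _ co_injective] at hsee
    refine ⟨z, hz, finish z hz P0.card (by omega) ?_⟩
    refine le_ncard_of_sees (S0 := P0.image co) ?_ hsee
    intro s hs
    obtain ⟨q, hq, rfl⟩ := mem_image.1 hs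
    exact ⟨q, (mem_filter.1 hq).1, rfl⟩

end Pool.Agent.H65.DI
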